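import Pool.Agent.H94.EH.H91.EHA.GMain
import Pool.Agent.H94.EH.M43

/-!
# MS Rg1: selections of residues, range `q^2 ≤ H x^(1-ε)`

`θ' = (1+θ)/2`, `ε' = ε/2` (`ε' ≤ 1/2`, `ε' ≤ 1 - θ'`), `L = log x`, `D = C + 3`.
* `y ≤ x/L^D`: `sel_triv` with `M = Icc 1 ⌊x^θ⌋` (contains the set of the `q`): `≤ nb (8 x/L^(C+1) + x^θ) ≤ nb x/L^C`.
* `y > x/L^D` (`y` is large with `x`): `gmain θ' ε' .. (C+1)` at `y` with `H := nb` and the sets `S`; `x^θ ≤ y^θ'` and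
  `q^2 ≤ H x^(1-ε) ≤ nb x^(ε/100) x^(1-ε) ≤ nb y^(1-ε')` for large `x`, so the sum is over a subset; `nb y/(log y)^(C+1) ≤ nb x/L^C`.
  `Fam y Q ε' nb S` for `1 ≤ Q ≤ y`: for `a ∈ S q` the number of `a' ∈ S q ⊆ Ioc a0 (a0+H)` with `a' ≡ a (q)` is at most `H/q + 1`
  (`Fam_count`), so the number of pairs is at most `∑_{q ∈ (Q,2Q]} nb (H/q + 1) ≤ nb (H + Q) ≤ nb (nb x^(ε/100) + Q) ≤ (Q nb + nb^2) y^(ε'/8)`.
-/

set_option autoImplicit false

namespace Pool.Agent.H65.MS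

open Finset
open Pool.Agent.H91.EHA

private theorem Rg1_class (q H a0 v : ℕ) (hq : 1 ≤ q) :
    (((Ioc a0 (a0 + H)).filter (fun n => n ≡ v [MOD q])).card : ℝ) ≤ (H : ℝ) / q + 1 := by
  have hqR : (0 : ℝ) < q := by exact_mod_cast hq
  have h1 := Nat.Ioc_filter_modEq_card a0 (a0 + H) (r := q) hq v
  obtain ⟨f1, hf1⟩ : ∃ f1 : ℤ, f1 = ⌊((a0 + H : ℕ) - v : ℚ) / q⌋ := ⟨_, rfl⟩
  obtain ⟨f2, hf2⟩ : ∃ f2 : ℤ, f2 = ⌊(a0 - v : ℚ) / q⌋ := ⟨_, rfl⟩
  have h2 : (((Ioc a0 (a0 + H)).filter (fun n => n ≡ v [MOD q])).card : ℤ) = max (f1 - f2) 0 := by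
    rw [hf1, hf2]
    exact h1
  have h3 : (f1 : ℚ) ≤ ((a0 + H : ℕ) - v : ℚ) / q := by
    rw [hf1]
    exact Int.floor_le _
  have h4 : ((a0 - v : ℚ) / q) < f2 + 1 := by
    rw [hf2]
    exact Int.lt_floor_add_one _
  have h6 : ((a0 + H : ℕ) - v : ℚ) / q = (a0 - v : ℚ) / q + (H : ℚ) / q := by
    push_cast
    ring
  rw [h6] at h3
  have h5 : ((f1 - f2 : ℤ) : ℚ) ≤ (H : ℚ) / q + 1 := by
    push_cast
    linarith only [h3, h4]
  have h7 : (((Ioc a0 (a0 + H)).filter (fun n => n ≡ v [MOD q])).card : ℚ) ≤ (H : ℚ) / q + 1 := by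
    have h8 : ((((Ioc a0 (a0 + H)).filter (fun n => n ≡ v [MOD q])).card : ℤ) : ℚ) ≤
        (H : ℚ) / q + 1 := by
      rw [h2, Int.cast_max]
      refine max_le h5 ?_
      push_cast
      positivity
    exact_mod_cast h8
  have h9 := (Rat.cast_le (K := ℝ)).2 h7
  push_cast at h9
  exact h9

theorem pairs_count (q H a0 nb : ℕ) (hq : 1 ≤ q) (S : Finset ℕ) (hS : S ⊆ Ioc a0 (a0 + H))
    (hc : S.card ≤ nb) :
    (((S ×ˢ S).filter (fun p => p.1 ≡ p.2 [MOD q])).card : ℝ) ≤ nb * ((H : ℝ) / q + 1) := by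
  have h1 : (((S ×ˢ S).filter (fun p => p.1 ≡ p.2 [MOD q])).card : ℝ) =
      ∑ a ∈ S, ((S.filter (fun b => a ≡ b [MOD q])).card : ℝ) := by
    rw [Finset.card_filter]
    push_cast
    rw [Finset.sum_product]
    refine Finset.sum_congr rfl fun a _ => ?_
    rw [Finset.card_filter]
    push_cast
    rfl
  rw [h1]
  have h2 : ∀ a ∈ S, ((S.filter (fun b => a ≡ b [MOD q])).card : ℝ) ≤ (H : ℝ) / q + 1 := by
    intro a _
    refine le_trans ?_ (Rg1_class q H a0 a hq)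
    have h3 : S.filter (fun b => a ≡ b [MOD q]) ⊆
        (Ioc a0 (a0 + H)).filter (fun n => n ≡ a [MOD q]) := by
      intro b hb
      rw [Finset.mem_filter] at hb ⊢
      exact ⟨hS hb.1, hb.2.symm⟩
    exact_mod_cast Finset.card_le_card h3
  have h4 := Finset.sum_le_card_nsmul S _ _ h2
  rw [nsmul_eq_mul] at h4
  refine h4.trans ?_
  have h5 : (0 : ℝ) ≤ (H : ℝ) / q + 1 := by positivity
  exact mul_le_mul_of_nonneg_right (by exact_mod_cast hc) h5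

private theorem Rg1_ev (θ ε : ℝ) (hθ : θ < 1) (hε : 0 < ε) (C x1 : ℕ) : ∃ x0 : ℕ, ∀ x : ℕ, x0 ≤ x →
    3 ≤ x ∧ 16 ≤ Real.log x ∧ (2 : ℝ) ^ (C + 1) ≤ Real.log x ∧
      Real.log x ^ (C + 3) ≤ (x : ℝ) ^ (ε / 4) ∧ 2 * Real.log x ^ C ≤ (x : ℝ) ^ (1 - θ) ∧
      (x1 : ℝ) ≤ (x : ℝ) ^ ((1 : ℝ) / 2) := by
  have e1 : ∀ᶠ x : ℝ in Filter.atTop, 16 ≤ Real.log x :=
    Real.tendsto_log_atTop.eventually_ge_atTop 16
  have e2 : ∀ᶠ x : ℝ in Filter.atTop, (2 : ℝ) ^ (C + 1) ≤ Real.log x :=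
    Real.tendsto_log_atTop.eventually_ge_atTop _
  have e3 : ∀ᶠ x : ℝ in Filter.atTop, (x1 : ℝ) ≤ x ^ ((1 : ℝ) / 2) :=
    (tendsto_rpow_atTop (by norm_num)).eventually_ge_atTop _
  have e4 : ∀ᶠ x : ℝ in Filter.atTop, 3 ≤ x := Filter.eventually_ge_atTop 3
  have key : ∀ (K : ℝ) (n : ℕ) (s : ℝ), 0 < K → 0 < s →
      ∀ᶠ x : ℝ in Filter.atTop, K * Real.log x ^ n ≤ x ^ s := by
    intro K n s hK hs
    have h := isLittleO_log_rpow_rpow_atTop (n : ℝ) hs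
    have h2 := h.bound (show (0 : ℝ) < 1 / K by positivity)
    filter_upwards [h2, e1, e4] with x hx h3 h4
    rw [Real.norm_of_nonneg (Real.rpow_nonneg (by linarith only [h3]) _),
      Real.norm_of_nonneg (Real.rpow_nonneg (by linarith only [h4]) _), Real.rpow_natCast] at hx
    calc K * Real.log x ^ n ≤ K * (1 / K * x ^ s) := mul_le_mul_of_nonneg_left hx hK.le
      _ = x ^ s := by field_simp
  have e5 := key 1 (C + 3) (ε / 4) one_pos (by linarith only [hε])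
  have e6 := key 2 C (1 - θ) two_pos (by linarith)
  have h := tendsto_natCast_atTop_atTop (R := ℝ) |>.eventually
    (e1.and (e2.and (e3.and (e4.and (e5.and e6)))))
  obtain ⟨x0, hx0⟩ := Filter.eventually_atTop.1 h
  refine ⟨x0, fun x hx => ?_⟩
  obtain ⟨a1, a2, a3, a4, a5, a6⟩ := hx0 x hx
  rw [one_mul] at a5
  exact ⟨by exact_mod_cast a4, a1, a2, a5, a6, a3⟩

/-- small `y` -/
private theorem Rg1_numA (nb y x L LC F : ℝ) (hnb : 0 ≤ nb) (hL : 16 ≤ L) (hLC : 0 < LC)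
    (hx : 0 < x) (hy : y ≤ x / (LC * L ^ 3)) (hF : F ≤ x / (2 * LC)) :
    nb * (8 * y * L ^ 2 + F) ≤ nb * x / LC := by
  have hLp : 0 < L := by linarith only [hL]
  have h1 : 8 * y * L ^ 2 ≤ x / (2 * LC) := by
    have h2 : 8 * y * L ^ 2 ≤ 8 * (x / (LC * L ^ 3)) * L ^ 2 := by
      have : 0 ≤ L ^ 2 := by positivity
      nlinarith only [hy]
    refine h2.trans ?_
    have h3 : 8 * (x / (LC * L ^ 3)) * L ^ 2 = (x / (2 * LC)) * (16 / L) := by
      field_simp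
      ring
    rw [h3]
    have h4 : 16 / L ≤ 1 := by
      rw [div_le_one hLp]
      exact hL
    have h5 : 0 ≤ x / (2 * LC) := by positivity
    nlinarith only [h4, h5]
  have h6 : 8 * y * L ^ 2 + F ≤ x / LC := by
    have h7 : x / (2 * LC) + x / (2 * LC) = x / LC := by
      field_simp
      ring
    linarith only [hF, h1, h7]
  calc nb * (8 * y * L ^ 2 + F) ≤ nb * (x / LC) := mul_le_mul_of_nonneg_left h6 hnb
    _ = nb * x / LC := by ring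

private theorem Rg1_numB (nb y x L M : ℝ) (C : ℕ) (hnb : 0 ≤ nb) (hL : 16 ≤ L)
    (h2 : (2 : ℝ) ^ (C + 1) ≤ L) (hx : 0 ≤ x) (hy : y ≤ x) (hM : L / 2 ≤ M) :
    nb * y / M ^ (C + 1) ≤ nb * x / L ^ C := by
  have hLp : 0 < L := by linarith only [hL]
  have hMp : 0 < M := by linarith only [hL, hM]
  have h3 : L ^ C ≤ M ^ (C + 1) := by
    calc L ^ C = L ^ (C + 1) / L := by
          rw [pow_succ]
          field_simp
      _ ≤ L ^ (C + 1) / 2 ^ (C + 1) :=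
          div_le_div_of_nonneg_left (by positivity) (by positivity) h2
      _ = (L / 2) ^ (C + 1) := by rw [div_pow]
      _ ≤ M ^ (C + 1) := pow_le_pow_left₀ (by positivity) hM _
  calc nb * y / M ^ (C + 1) ≤ nb * x / M ^ (C + 1) :=
        div_le_div_of_nonneg_right (mul_le_mul_of_nonneg_left hy hnb) (by positivity)
    _ ≤ nb * x / L ^ C :=
        div_le_div_of_nonneg_left (by positivity) (by positivity) h3

/-- the family of sets -/
private theorem Rg1_fam (y Q nb H a0 : ℕ) (ε' X : ℝ) (hQ : 1 ≤ Q) (hX : 1 ≤ X)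
    (hH : (H : ℝ) ≤ nb * X) (hXy : X ≤ (y : ℝ) ^ (ε' / 8)) (S : ℕ → Finset ℕ)
    (hS : ∀ q, S q ⊆ Ioc a0 (a0 + H)) (hc : ∀ q, (S q).card ≤ nb) :
    Fam y Q ε' nb S := by
  refine ⟨fun q _ => by exact_mod_cast hc q, ?_⟩
  have hQR : (0 : ℝ) < Q := by exact_mod_cast hQ
  have h1 : ∀ q ∈ Ioc Q (2 * Q),
      ((((S q) ×ˢ (S q)).filter (fun p => p.1 ≡ p.2 [MOD q])).card : ℝ) ≤
        nb * ((H : ℝ) / Q + 1) := by
    intro q hq
    rw [Finset.mem_Ioc] at hq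
    have hqR : (Q : ℝ) ≤ q := by exact_mod_cast hq.1.le
    refine (pairs_count q H a0 nb (by omega) (S q) (hS q) (hc q)).trans ?_
    refine mul_le_mul_of_nonneg_left ?_ (Nat.cast_nonneg nb)
    have h2 : (H : ℝ) / q ≤ (H : ℝ) / Q :=
      div_le_div_of_nonneg_left (Nat.cast_nonneg H) hQR hqR
    linarith only [h2]
  have h2 := Finset.sum_le_card_nsmul _ _ _ h1
  rw [nsmul_eq_mul, Nat.card_Ioc] at h2
  refine h2.trans ?_
  have h3 : ((2 * Q - Q : ℕ) : ℝ) = Q := by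
    have : 2 * Q - Q = Q := by omega
    rw [this]
  rw [h3]
  have hnb : (0 : ℝ) ≤ nb := Nat.cast_nonneg nb
  calc (Q : ℝ) * (nb * ((H : ℝ) / Q + 1)) = nb * (H + Q) := by field_simp
    _ ≤ nb * (nb * X + Q * X) := by
        refine mul_le_mul_of_nonneg_left ?_ hnb
        nlinarith only [hH, hX]
    _ = (Q * nb + nb ^ 2) * X := by ring
    _ ≤ (Q * nb + nb ^ 2) * (y : ℝ) ^ (ε' / 8) :=
        mul_le_mul_of_nonneg_left hXy (by positivity)

theorem rg1 (θ ε : ℝ) (hθ : θ < 1) (hε : 0 < ε) (hε2 : ε ≤ 1 / 2) (hεθ : ε ≤ 1 - θ) (C : ℕ) :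
    ∃ x0 : ℕ, ∀ x : ℕ, x0 ≤ x → ∀ y H a0 nb : ℕ, y ≤ x → 1 ≤ nb → (H : ℝ) ≤ nb * (x : ℝ) ^ (ε / 100) →
      ∀ S : ℕ → Finset ℕ, (∀ q, S q ⊆ Ioc a0 (a0 + H)) → (∀ q, (S q).card ≤ nb) →
      ∑ q ∈ (Icc 1 ⌊(x : ℝ) ^ θ⌋₊).filter (fun q : ℕ => (q : ℝ) ^ 2 ≤ H * (x : ℝ) ^ (1 - ε)),
        ∑ a ∈ (S q).filter (fun a => Nat.Coprime a q), |err y q (a : ZMod q)|
          ≤ nb * x / Real.log x ^ C := by
  -- the exponents
  obtain ⟨θ₁, hθ₁⟩ : ∃ θ₁ : ℝ, θ₁ = max θ 0 := ⟨_, rfl⟩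
  have hθ10 : 0 ≤ θ₁ := by rw [hθ₁]; exact le_max_right _ _
  have hθθ : θ ≤ θ₁ := by rw [hθ₁]; exact le_max_left _ _
  have hθ11 : θ₁ ≤ 1 - ε := by
    rw [hθ₁]
    exact max_le (by linarith only [hεθ]) (by linarith only [hε, hε2])
  obtain ⟨x1, hx1⟩ := gmain ((1 + θ₁) / 2) (ε / 2) (by linarith only [hε, hθ11]) (by linarith) (by linarith)
    (by linarith only [hθ11]) (C + 1)
  obtain ⟨x0, hx0⟩ := Rg1_ev θ ε hθ hε C x1
  refine ⟨x0, fun x hx y H a0 nb hyx hnb hH S hS hc => ?_⟩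
  obtain ⟨g1, g2, g3, g4, g5, g6⟩ := hx0 x hx
  have hx3 : (3 : ℝ) ≤ x := by exact_mod_cast g1
  have hxp : (0 : ℝ) < x := by linarith only [hε, hε2, hx3]
  have hx1' : (1 : ℝ) ≤ x := by linarith only [hε, hε2, hx3]
  have mono : ∀ a b : ℝ, a ≤ b → (x : ℝ) ^ a ≤ (x : ℝ) ^ b := fun a b hab =>
    Real.rpow_le_rpow_of_exponent_le hx1' hab
  have hnb0 : (0 : ℝ) ≤ nb := Nat.cast_nonneg nb
  have hLp : 0 < Real.log x := by linarith only [hε, hε2, g2]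
  have hMx : ⌊(x : ℝ) ^ θ⌋₊ ≤ x := by
    have h1 : (⌊(x : ℝ) ^ θ⌋₊ : ℝ) ≤ x := by
      calc (⌊(x : ℝ) ^ θ⌋₊ : ℝ) ≤ (x : ℝ) ^ θ := Nat.floor_le (by positivity)
        _ ≤ (x : ℝ) ^ (1 : ℝ) := mono _ _ hθ.le
        _ = x := Real.rpow_one _
    exact_mod_cast h1
  set F := (Icc 1 ⌊(x : ℝ) ^ θ⌋₊).filter (fun q : ℕ => (q : ℝ) ^ 2 ≤ H * (x : ℝ) ^ (1 - ε)) with hF
  have hyxR : (y : ℝ) ≤ x := by exact_mod_cast hyx
  rcases le_or_gt (y : ℝ) (x / Real.log x ^ (C + 3)) with hy | hy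
  · -- small `y`
    have hFsub : F ⊆ Icc 1 x := by
      intro q hq
      rw [hF, Finset.mem_filter, Finset.mem_Icc] at hq
      rw [Finset.mem_Icc]
      exact ⟨hq.1.1, hq.1.2.trans hMx⟩
    have h1 := sel_triv x y nb g1 F hFsub (fun q => (S q).filter (fun a => Nat.Coprime a q))
      (fun q => (Finset.card_filter_le _ _).trans (hc q))
    refine h1.trans ?_
    have hFc : (F.card : ℝ) ≤ x / (2 * Real.log x ^ C) := by
      have h2 : (F.card : ℝ) ≤ (x : ℝ) ^ θ := by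
        have h3 : F.card ≤ ⌊(x : ℝ) ^ θ⌋₊ := by
          refine (Finset.card_filter_le _ _).trans ?_
          rw [Nat.card_Icc]
          omega
        exact (by exact_mod_cast h3 : (F.card : ℝ) ≤ (⌊(x : ℝ) ^ θ⌋₊ : ℝ)).trans
          (Nat.floor_le (by positivity))
      refine h2.trans ?_
      rw [le_div_iff₀ (by positivity)]
      calc (x : ℝ) ^ θ * (2 * Real.log x ^ C) ≤ (x : ℝ) ^ θ * (x : ℝ) ^ (1 - θ) :=
            mul_le_mul_of_nonneg_left g5 (by positivity)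
        _ = x := by
            rw [← Real.rpow_add hxp]
            have : θ + (1 - θ) = 1 := by ring
            rw [this, Real.rpow_one]
    refine Rg1_numA nb y x (Real.log x) (Real.log x ^ C) F.card hnb0 g2 (by positivity) hxp ?_ hFc
    rw [← pow_add]
    exact hy
  · -- large `y`
    have hyl : (x : ℝ) ^ (1 - ε / 4) ≤ y := by
      refine le_trans ?_ hy.le
      rw [le_div_iff₀ (by positivity)]
      calc (x : ℝ) ^ (1 - ε / 4) * Real.log x ^ (C + 3)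
          ≤ (x : ℝ) ^ (1 - ε / 4) * (x : ℝ) ^ (ε / 4) :=
            mul_le_mul_of_nonneg_left g4 (by positivity)
        _ = x := by
            rw [← Real.rpow_add hxp]
            have : 1 - ε / 4 + ε / 4 = 1 := by ring
            rw [this, Real.rpow_one]
    have hyp : (0 : ℝ) < y := lt_of_lt_of_le (Real.rpow_pos_of_pos hxp _) hyl
    have hpow : ∀ a b : ℝ, 0 ≤ b → a ≤ (1 - ε / 4) * b → (x : ℝ) ^ a ≤ (y : ℝ) ^ b := by
      intro a b hb hab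
      calc (x : ℝ) ^ a ≤ (x : ℝ) ^ ((1 - ε / 4) * b) := mono _ _ hab
        _ = ((x : ℝ) ^ (1 - ε / 4)) ^ b := Real.rpow_mul hxp.le _ _
        _ ≤ (y : ℝ) ^ b := Real.rpow_le_rpow (by positivity) hyl hb
    have hyx1 : x1 ≤ y := by
      have h1 : (x1 : ℝ) ≤ y := by
        refine g6.trans ?_
        have h2 := hpow (1 / 2) 1 (by norm_num) (by linarith only [hε, hε2])
        rwa [Real.rpow_one] at h2
      exact_mod_cast h1
    have hlogy : Real.log x / 2 ≤ Real.log y := by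
      have h1 := Real.log_le_log (Real.rpow_pos_of_pos hxp _) hyl
      rw [Real.log_rpow hxp] at h1
      nlinarith only [hε2, g2, h1, hε]
    have hfam : ∀ Q : ℕ, 1 ≤ Q → Q ≤ y → Fam y Q (ε / 2) nb S := by
      intro Q hQ _
      refine Rg1_fam y Q nb H a0 (ε / 2) ((x : ℝ) ^ (ε / 100)) hQ
        (Real.one_le_rpow hx1' (by linarith only [hε])) hH ?_ S hS hc
      refine hpow _ _ (by linarith only [hε]) ?_
      nlinarith only [hε, hε2]
    have hnb1 : (1 : ℝ) ≤ nb := by exact_mod_cast hnb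
    have hmain := hx1 y hyx1 nb S hnb1 hfam
    refine le_trans ?_ (hmain.trans (Rg1_numB nb y x (Real.log x) (Real.log y) C hnb0 g2 g3
      hxp.le hyxR hlogy))
    refine Finset.sum_le_sum_of_subset_of_nonneg ?_ fun q _ _ =>
      Finset.sum_nonneg fun a _ => abs_nonneg _
    intro q hq
    rw [hF, Finset.mem_filter, Finset.mem_Icc] at hq
    rw [Finset.mem_filter, Finset.mem_Icc]
    obtain ⟨⟨hq1, hq2⟩, hq3⟩ := hq
    refine ⟨⟨hq1, ?_⟩, ?_⟩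
    · refine hq2.trans (Nat.floor_le_floor ?_)
      refine (mono θ θ₁ hθθ).trans (hpow _ _ (by linarith only [hε, hε2, hθ10]) ?_)
      nlinarith only [hθ11, hε, hε2]
    · refine hq3.trans ?_
      calc (H : ℝ) * (x : ℝ) ^ (1 - ε) ≤ (nb * (x : ℝ) ^ (ε / 100)) * (x : ℝ) ^ (1 - ε) :=
            mul_le_mul_of_nonneg_right hH (by positivity)
        _ = nb * (x : ℝ) ^ (ε / 100 + (1 - ε)) := by
            rw [Real.rpow_add hxp]
            ring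
        _ ≤ nb * (y : ℝ) ^ (1 - ε / 2) := by
            refine mul_le_mul_of_nonneg_left (hpow _ _ (by linarith only [hε, hε2]) ?_) hnb0
            nlinarith only [hε]

end Pool.Agent.H65.MS
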