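import Pool.Agent.H94.EH.M52
import Pool.Agent.H94.EH.M55

/-!
# MS FinA: the theorem for finite families

`c` from `sel_all`; `exc C` with `Z = H x^(-c)`, `M = MM θ ε x H`: `nb > H x^(-c)` gives `H ≤ nb x^c` and `1 ≤ nb` (`nb > 0`).
-/

set_option autoImplicit false

namespace Pool.Agent.H65.MS

open Finset

theorem ms_main (θ ε : ℝ) (hθ : θ < 1) (hε : 0 < ε) : ∃ c : ℝ, 0 < c ∧ ∀ C : ℕ, ∃ x0 : ℕ,
    ∀ x : ℕ, x0 ≤ x → ∀ a0 H : ℕ, a0 ≤ x → H ≤ x →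
      ∀ F : Finset (Finset ℕ), (∀ A ∈ F, A ⊆ Ioc a0 (a0 + H)) →
        (∀ A ∈ F, ∀ B ∈ F, A ≠ B → Disjoint A B) →
        ((Bad x C (MM θ ε x H) F).card : ℝ) ≤ H * (x : ℝ) ^ (-c) := by
  obtain ⟨c, hc, h⟩ := sel_all θ ε hθ hε
  refine ⟨c, hc, fun C => ?_⟩
  obtain ⟨x1, h1⟩ := h (2 * C + 6)
  obtain ⟨x2, h2⟩ := exc C
  refine ⟨max (max x1 x2) 1, fun x hx a0 H ha0 hH F hF hd => ?_⟩
  have g1 : x1 ≤ x := le_trans (le_trans (le_max_left _ _) (le_max_left _ _)) hx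
  have g2 : x2 ≤ x := le_trans (le_trans (le_max_right _ _) (le_max_left _ _)) hx
  have g3 : 1 ≤ x := le_trans (le_max_right _ _) hx
  have hx1 : (1 : ℝ) ≤ x := by exact_mod_cast g3
  have hx0 : (0 : ℝ) < x := by linarith
  have hp : 0 < (x : ℝ) ^ (-c) := Real.rpow_pos_of_pos hx0 _
  have hM : MM θ ε x H ⊆ Icc 1 x := by
    intro q hq
    unfold MM at hq
    rw [mem_filter, mem_Icc] at hq
    rw [mem_Icc]
    refine ⟨hq.1.1, hq.1.2.trans ?_⟩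
    have : (⌊(x : ℝ) ^ θ⌋₊ : ℝ) ≤ x := by
      refine (Nat.floor_le (by positivity)).trans ?_
      calc (x : ℝ) ^ θ ≤ (x : ℝ) ^ (1 : ℝ) := Real.rpow_le_rpow_of_exponent_le hx1 hθ.le
        _ = x := Real.rpow_one _
    exact_mod_cast this
  refine h2 x g2 _ hM a0 H _ (by positivity) ?_ F hF hd
  intro nb hnb S hS hSc y hy
  have hnb0 : (0 : ℝ) < nb := lt_of_le_of_lt (by positivity) hnb
  have hnb1 : 1 ≤ nb := by exact_mod_cast hnb0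
  refine h1 x g1 y H a0 nb hy ha0 hH hnb1 ?_ S hS hSc
  have e1 : (x : ℝ) ^ (-c) * (x : ℝ) ^ c = 1 := by
    rw [← Real.rpow_add hx0, neg_add_cancel, Real.rpow_zero]
  calc (H : ℝ) = H * ((x : ℝ) ^ (-c) * (x : ℝ) ^ c) := by rw [e1, mul_one]
    _ = H * (x : ℝ) ^ (-c) * (x : ℝ) ^ c := by ring
    _ ≤ nb * (x : ℝ) ^ c := mul_le_mul_of_nonneg_right hnb.le (by positivity)

end Pool.Agent.H65.MS
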